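import Pool.Agent.Helper2_FC.Main

/-!
# The absolute Galois group of a number field is an extension of a group with two generators by a
# free profinite group

`k` is a number field. There is a sequence of Galois extensions `K i` of `k` with alternating
groups of increasing degrees (as sparse as one likes) such that every compositum `N` of finite
Galois extensions of `k` with nonabelian simple groups which contains infinitely many of the `K i`
has a free absolute Galois group; the Galois group of the compositum of any of the `K i` is
topologically generated by two elements.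
-/

set_option autoImplicit false

namespace Pool.Agent.Results.MP_dadaab_nt.FreeComposita

section

variable (k : Type) [Field k]

/-- `E` is a finite Galois extension of `k`, inside its algebraic closure, whose Galois group is a
nonabelian simple group. -/
def IsSimpleExtension (E : IntermediateField k (AlgebraicClosure k)) : Prop :=
  FiniteDimensional k E ∧ IsGalois k E ∧ IsSimpleGroup (E ≃ₐ[k] E) ∧
    ∃ a b : E ≃ₐ[k] E, a * b ≠ b * a

/-- `E` is a finite Galois extension of `k`, inside its algebraic closure, whose Galois group is
isomorphic to the alternating group of degree `n`. -/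
def IsAlternatingExtension (n : ℕ) (E : IntermediateField k (AlgebraicClosure k)) : Prop :=
  FiniteDimensional k E ∧ IsGalois k E ∧ Nonempty ((E ≃ₐ[k] E) ≃* alternatingGroup (Fin n))

/-- The compositum of the fields in `s`. -/
noncomputable def compositum (s : Set (IntermediateField k (AlgebraicClosure k))) :
    IntermediateField k (AlgebraicClosure k) :=
  ⨆ E : s, E.1

/-- The Galois group of `N/k` is topologically generated by two elements. -/
def GeneratedByTwo (N : IntermediateField k (AlgebraicClosure k)) : Prop :=
  ∃ σ τ : N ≃ₐ[k] N, (Subgroup.closure {σ, τ}).topologicalClosure = ⊤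

end

/-- The restriction maps identify the Galois group of `N/k` with the product of the Galois groups of
the fields `E` in `s`: for every family `σ` of elements `σ E` of the groups `Gal(E/k)` there is
exactly one `τ` in `Gal(N/k)` whose restriction to `E` is `σ E`, for all `E` in `s`. -/
def GaloisGroupIsProduct {k A : Type} [Field k] [Field A] [Algebra k A]
    (N : IntermediateField k A) (s : Set (IntermediateField k A)) : Prop :=
  ∀ σ : (∀ E : s, (E.1 ≃ₐ[k] E.1)), ∃! τ : N ≃ₐ[k] N,
    ∀ (E : s) (x : E.1) (hx : (x : A) ∈ N), (τ ⟨x, hx⟩ : A) = (σ E x : E.1)

/-- The profinite group `Γ` is a free profinite group of countably infinite rank: there is a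
sequence `x` in `Γ` which converges to `1` such that for every finite group `H` and every sequence
`f` in `H` which is `1` from some point on there is exactly one continuous homomorphism `φ` from `Γ`
to `H` with `φ (x i) = f i` for all `i` (a homomorphism to a finite group is continuous iff its
kernel is open). -/
def IsFreeProfinite (Γ : Type) [Group Γ] [TopologicalSpace Γ] : Prop :=
  ∃ x : ℕ → Γ, Filter.Tendsto x Filter.atTop (nhds 1) ∧
    ∀ (H : Type) [Group H] [Finite H] (f : ℕ → H), (∃ n, ∀ i, n ≤ i → f i = 1) →
      ∃! φ : Γ →* H, IsOpen (φ.ker : Set Γ) ∧ ∀ i, φ (x i) = f i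

/-- Every finite embedding problem for the profinite group `Γ` has a proper solution: for every
epimorphism `α` of finite groups `G → H` and every continuous epimorphism `φ : Γ → H` there is a
continuous epimorphism `ψ : Γ → G` with `α ∘ ψ = φ`. -/
def EmbeddingProblemsSolvable (Γ : Type) [Group Γ] [TopologicalSpace Γ] : Prop :=
  ∀ (G H : Type) [Group G] [Finite G] [Group H] [Finite H] (α : G →* H) (φ : Γ →* H),
    Function.Surjective α → Function.Surjective φ → IsOpen (φ.ker : Set Γ) →
    ∃ ψ : Γ →* G, Function.Surjective ψ ∧ IsOpen (ψ.ker : Set Γ) ∧ α.comp ψ = φ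

/-- The Galois group of `A/K` is a free profinite group of countably infinite rank, and every
finite embedding problem for this group has a proper solution. -/
def GaloisGroupIsFree (K A : Type) [Field K] [Field A] [Algebra K A] : Prop :=
  IsFreeProfinite (A ≃ₐ[K] A) ∧ EmbeddingProblemsSolvable (A ≃ₐ[K] A)

/-- Let `k` be a number field and `f : ℕ → ℕ`. There are Galois extensions `K 0, K 1, ...` of `k`
in its algebraic closure with alternating groups of degrees `m 0, m 1, ...`, where `5 ≤ m 0` and
`m i, f (m i) < m (i + 1)`, such that
* for every set `s` of finite Galois extensions of `k` with nonabelian simple groups which contains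
`K i` for infinitely many `i`, the compositum `N` of `s` is Galois over `k`, its Galois group is
the product of the groups `Gal(E/k)` with `E` in `s`, and the absolute Galois group of `N` is a
free profinite group of countably infinite rank;
* for every set `I` of indices the Galois group over `k` of the compositum of the `K i` with `i` in
`I` is topologically generated by two elements. -/
theorem result (k : Type) [Field k] [NumberField k] (f : ℕ → ℕ) :
    ∃ (m : ℕ → ℕ) (K : ℕ → IntermediateField k (AlgebraicClosure k)), 5 ≤ m 0 ∧
      (∀ i, m i < m (i + 1) ∧ f (m i) < m (i + 1)) ∧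
      (∀ i, IsAlternatingExtension k (m i) (K i)) ∧
      (∀ s : Set (IntermediateField k (AlgebraicClosure k)),
        (∀ E ∈ s, IsSimpleExtension k E) → {i | K i ∈ s}.Infinite →
          IsGalois k (compositum k s) ∧ GaloisGroupIsProduct (compositum k s) s ∧
          GaloisGroupIsFree (compositum k s) (AlgebraicClosure k)) ∧
      ∀ I : Set ℕ, GeneratedByTwo k (compositum k (K '' I)) := by
  obtain ⟨m, K, hm0, hm1, hm2, hK, hs, hI⟩ := Pool.Agent.FC.main k f
  refine ⟨m, K, hm0, fun i => ⟨hm1 i, hm2 i⟩, hK, fun s hsimple hinf => ?_, hI⟩
  have h1 : IsGalois k (compositum k s) := Pool.Agent.FC.isGalois_iSup s hsimple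
  have h3 := hs s hsimple hinf
  refine ⟨h1, ?_, Pool.Agent.QALT.H58.free k (compositum k s) h3, h3⟩
  obtain ⟨e, he⟩ := Pool.Agent.QALT.H58.exists_prodEquiv s (fun E hE => (hsimple E hE).1)
    (fun E hE => (hsimple E hE).2.1) (compositum k s) rfl (Pool.Agent.FC.independent s hsimple)
  intro σ
  refine ⟨e.symm σ, fun E x hx => ?_, fun τ hτ => ?_⟩
  · rw [← he, ContinuousMulEquiv.apply_symm_apply]
  · rw [ContinuousMulEquiv.eq_symm_apply]
    funext E
    ext x
    have hx : (x : AlgebraicClosure k) ∈ compositum k s :=
      (le_iSup (fun E : s => E.1) E) x.2
    rw [he τ E x hx, hτ E x hx]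

end Pool.Agent.Results.MP_dadaab_nt.FreeComposita
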