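import Pool.Agent.Helper97_UW.Main
import Pool.Agent.Helper97_UW.Tower
import Pool.Agent.Helper97_UW.Tower2

/-!
# Inertia-controlled wreath product realizations for every finite group

For every finite group `G` there is `M > 0` such that for every positive multiple `m` of `M` and
every finite set `S` of primes the group of all `(w, s)` in `G ≀ S_m` with `∏ w i ∈ [G, G]` is the
Galois group of a totally real Galois extension of `ℚ` in which the primes in `S` split completely
and all inertia groups are trivial or generated by a `G ^ m`-conjugate of a transposition.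
-/

set_option autoImplicit false

open NumberField Pointwise

namespace Pool.Agent.Results.MP_dadaab_nt.UnramifiedWreath

open Pool.Agent.Helper97_UW

/-- The wreath product of `G` with the symmetric group of degree `m`. -/
abbrev Wreath (G : Type*) [Group G] (m : ℕ) := (Fin m → G) ⋊[mulAutArrow] Equiv.Perm (Fin m)

/-- `x` is the conjugate of a transposition by an element of the base group `G ^ m`. -/
def IsTwistedTransposition {G : Type*} [Group G] {m : ℕ} (x : Wreath G m) : Prop :=
  ∃ (a : Fin m → G) (i j : Fin m), i ≠ j ∧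
    x = SemidirectProduct.inl a * SemidirectProduct.inr (Equiv.swap i j) *
      (SemidirectProduct.inl a)⁻¹

/-- `e` is injective and its image is the group of all `(w, s)` such that `∏ w i` lies in the
commutator subgroup of `G`. -/
def IsOntoNormKernel {G : Type*} [Group G] {m : ℕ} {Γ : Type*} [Group Γ]
    (e : Γ →* Wreath G m) : Prop :=
  Function.Injective e ∧ ∀ x, x ∈ e.range ↔ ∏ i, Abelianization.of (x.left i) = 1

/-- All decomposition groups over the primes in `S` are trivial. -/
def SplitsCompletelyAt (S : Finset ℕ) (L : Type) [Field L] [NumberField L] : Prop :=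
  ∀ p ∈ S, ∀ P : Ideal (𝓞 L), P.IsPrime → (p : 𝓞 L) ∈ P →
    MulAction.stabilizer (L ≃ₐ[ℚ] L) P = ⊥

/-- Under `e`, every nontrivial element of an inertia group is the conjugate of a transposition by
an element of the base group. -/
def HasTranspositionInertia {G : Type*} [Group G] {m : ℕ} {L : Type} [Field L] [NumberField L]
    (e : (L ≃ₐ[ℚ] L) →* Wreath G m) : Prop :=
  ∀ P : Ideal (𝓞 L), P.IsPrime → P ≠ ⊥ → ∀ σ ∈ P.inertia (L ≃ₐ[ℚ] L),
    σ = 1 ∨ IsTwistedTransposition (e σ)

theorem result (G : Type*) [Group G] [Finite G] :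
    ∃ M : ℕ, 0 < M ∧ ∀ m : ℕ, 0 < m → M ∣ m → ∀ S : Finset ℕ, (∀ p ∈ S, p.Prime) →
      ∃ (L : Type) (_ : Field L) (_ : NumberField L), IsGalois ℚ L ∧ IsTotallyReal L ∧
        SplitsCompletelyAt S L ∧ ∃ e : (L ≃ₐ[ℚ] L) →* Wreath G m,
          IsOntoNormKernel e ∧ HasTranspositionInertia e := by
  have hsm : Small.{0} G := inferInstance
  let H : Type := Shrink.{0} G
  let φ : H ≃* G := Shrink.mulEquiv
  have hH : Finite H := Finite.of_equiv G (equivShrink G)
  obtain ⟨M, hM, h⟩ := main H
  refine ⟨M, hM, fun m hm hMm S hS => ?_⟩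
  obtain ⟨L, iL, iNL, hGal, hReal, hSplit, e, he⟩ := h m hm hMm S hS
  refine ⟨L, iL, iNL, hGal, hReal, hSplit, ?_⟩
  have hcomm : ∀ s : Equiv.Perm (Fin m),
      (MonoidHom.compLeft φ.toMonoidHom (Fin m)).comp
        (mulAutArrow s : MulAut (Fin m → H)).toMonoidHom =
      (mulAutArrow s : MulAut (Fin m → G)).toMonoidHom.comp
        (MonoidHom.compLeft φ.toMonoidHom (Fin m)) := fun s => by
    ext w i
    rfl
  let Ψ : Wr H m →* (Fin m → G) ⋊[mulAutArrow] Equiv.Perm (Fin m) :=
    SemidirectProduct.map (MonoidHom.compLeft φ.toMonoidHom (Fin m))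
      (MonoidHom.id (Equiv.Perm (Fin m))) hcomm
  have hΨl : ∀ (x : Wr H m) (i : Fin m), (Ψ x).left i = φ (x.left i) := fun x i => rfl
  have hΨr : ∀ x : Wr H m, (Ψ x).right = x.right := fun x => rfl
  have hΨinj : Function.Injective Ψ := by
    intro x y hxy
    refine SemidirectProduct.ext ?_ ?_
    · funext i
      apply φ.injective
      rw [← hΨl, ← hΨl, hxy]
    · rw [← hΨr x, hxy, hΨr y]
  have hprod : ∀ x : Wr H m, (∏ i, Abelianization.of (x.left i) = 1) ↔
      ∏ i, Abelianization.of ((Ψ x).left i) = 1 := by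
    intro x
    have h1 : ∏ i, Abelianization.of ((Ψ x).left i) =
        φ.abelianizationCongr (∏ i, Abelianization.of (x.left i)) := by
      rw [map_prod]
      exact Finset.prod_congr rfl fun i _ => by rw [hΨl]; rfl
    rw [h1, map_eq_one_iff _ φ.abelianizationCongr.injective]
  refine ⟨(Ψ.comp (NormKer H m).subtype).comp e.toMonoidHom, ⟨?_, ?_⟩, ?_⟩
  · intro x y hxy
    exact e.injective (Subtype.ext (hΨinj hxy))
  · intro x
    constructor
    · rintro ⟨y, rfl⟩
      exact (hprod _).1 ((mem_normKer _).1 (e y).2)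
    · intro hx
      let x' : Wr H m := ⟨fun i => φ.symm (x.left i), x.right⟩
      have hx' : Ψ x' = x := by
        refine SemidirectProduct.ext ?_ rfl
        funext i
        rw [hΨl]
        exact φ.apply_symm_apply _
      have hmem : x' ∈ NormKer H m := by
        rw [mem_normKer, hprod, hx']
        exact hx
      refine ⟨e.symm ⟨x', hmem⟩, ?_⟩
      change Ψ (e (e.symm ⟨x', hmem⟩) : Wr H m) = x
      rw [e.apply_symm_apply]
      exact hx'
  · intro P hP hP0 σ hσ
    rcases he P hP hP0 σ hσ with h1 | ⟨a, i, j, hij, h1⟩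
    · exact Or.inl h1
    · right
      refine ⟨fun k => φ (a k), i, j, hij, ?_⟩
      change Ψ (e σ : Wr H m) = _
      have h2 : Ψ (SemidirectProduct.inl a) = SemidirectProduct.inl (fun k => φ (a k)) :=
        SemidirectProduct.ext rfl rfl
      have h3 : Ψ (SemidirectProduct.inr (Equiv.swap i j)) =
          SemidirectProduct.inr (Equiv.swap i j) := by
        refine SemidirectProduct.ext ?_ rfl
        funext k
        rw [hΨl]
        simp
      rw [h1, map_mul, map_mul, map_inv, h2, h3]

end Pool.Agent.Results.MP_dadaab_nt.UnramifiedWreath
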