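import Pool.Agent.Helper71_ALT2.Main
import Pool.Agent.Helper71_ALT2.Final
import Pool.Agent.Helper71_ALT2.AltW

/-!
# Every finite group `G`: the groups between `(G ≀ A_m)'` and `G ≀ A_m` are Galois groups over the
# rationals
-/

set_option autoImplicit false

namespace Pool.Agent.Results.MP_dadaab_nt.WreathAlternating

/-- For every finite group `G` there is `m₀` such that for all `m ≥ m₀` every subgroup `E` of the
wreath product of `G` with the alternating group of degree `m` (the semidirect product of `G ^ m`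
with `A_m` permuting the coordinates) that contains its commutator subgroup is the Galois group of
a Galois extension of the rationals. -/
theorem result (G : Type*) [Group G] [Finite G] : ∃ m₀ : ℕ, ∀ m : ℕ, m₀ ≤ m →
    ∀ E : Subgroup ((Fin m → G) ⋊[mulAutArrow] alternatingGroup (Fin m)),
      commutator ((Fin m → G) ⋊[mulAutArrow] alternatingGroup (Fin m)) ≤ E →
        ∃ (L : Type) (_ : Field L) (_ : Algebra ℚ L), IsGalois ℚ L ∧
          Nonempty (E ≃* (L ≃ₐ[ℚ] L)) := by
  obtain ⟨m₀, h⟩ := Pool.Agent.ALT2.final Pool.Agent.ALT2.main G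
  refine ⟨max m₀ 5, fun m hm E hE => ?_⟩
  obtain ⟨h1, ⟨e⟩⟩ := Pool.Agent.ALT2.exists_equiv (le_trans (le_max_right _ _) hm) E hE
  obtain ⟨L, i1, i2, i3, ⟨e'⟩⟩ := h m (le_trans (le_max_left _ _) hm) _ h1
  exact ⟨L, i1, i2, i3, ⟨e.trans e'⟩⟩

end Pool.Agent.Results.MP_dadaab_nt.WreathAlternating
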