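import Pool.Agent.Helper15_IGP.Main

/-!
# Every finite group `G`: the wreath products `G ≀ S_m` are Galois groups over the rationals
-/

set_option autoImplicit false

namespace Pool.Agent.Results.MP_dadaab_nt.WreathSymmetric

/-- For every finite group `G` there is `m₀` such that for all `m ≥ m₀` the wreath product of `G`
with the symmetric group of degree `m`, that is the semidirect product of `G ^ m` with `S_m`
permuting the coordinates, is the Galois group of a Galois extension of the rationals. -/
theorem result (G : Type*) [Group G] [Finite G] : ∃ m₀ : ℕ, ∀ m : ℕ, m₀ ≤ m →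
    ∃ (L : Type) (_ : Field L) (_ : Algebra ℚ L), IsGalois ℚ L ∧
      Nonempty (((Fin m → G) ⋊[mulAutArrow] Equiv.Perm (Fin m)) ≃* (L ≃ₐ[ℚ] L)) := by
  obtain ⟨m₀, h⟩ := Pool.Agent.Helper15_IGP.wreath_realizable_of_large G
  refine ⟨m₀, fun m hm => ?_⟩
  obtain ⟨L, i1, i2, i3, e⟩ := h m hm
  exact ⟨L, i1, i2, i3, e⟩

end Pool.Agent.Results.MP_dadaab_nt.WreathSymmetric
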